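import Pool.Agent.PW.Defs

set_option autoImplicit false

/-!
# Squad PX (`MP_b2b50d_lc`): forms with bounded interaction

The theorem of squad PW for a larger class of factors: polynomials (of any degree) in which every
variable interacts with a bounded number of variables (`IsLo`).  `dd`, `JUN`, `RR`, `FG`, `Robust`, `VV`,
`Piv`, `del`, `eul`, `Ph`, `Zer`, `Free` are those of `Pool/Agent/PW/Defs.lean`.
-/

namespace Pool.Agent.PX

open MvPolynomial
open Pool.Agent.RS (FF io)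
open Pool.Agent.PW (dd JUN RR FG Robust VV Piv del eul Ph Zer Free)

section Field

variable {E : Type} [Field E]

/-- Forms: every variable interacts with at most `c` variables. -/
def IsLo (c : ℕ) (g : MvPolynomial ℕ E) : Prop := ∀ i, (pderiv i g).vars.card ≤ c

/-- `x_i` interacts only with the variables of `Γ i`. -/
def IsG (Γ : ℕ → Finset ℕ) (g : MvPolynomial ℕ E) : Prop := ∀ i, (pderiv i g).vars ⊆ Γ i

/-- `Γ` is a reflexive and symmetric relation with at most `s` elements in each `Γ i`. -/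
structure Sym (s : ℕ) (Γ : ℕ → Finset ℕ) : Prop where
  refl : ∀ i, i ∈ Γ i
  symm : ∀ i j, j ∈ Γ i → i ∈ Γ j
  card : ∀ i, (Γ i).card ≤ s

/-- All mixed derivatives of `f` in `c + 1` different variables outside `G`, no two of which interact,
vanish. -/
def FN (Γ : ℕ → Finset ℕ) : ℕ → Finset ℕ → FF E → Prop
  | 0, G, f => ∀ i ∉ G, dd i f = 0
  | c + 1, G, f => ∀ i ∉ G, FN Γ c (G ∪ Γ i) (dd i f)

/-- Sums of fractions `H / ∏ b`, where `b` is a list of at most `R` nonzero forms and `H` has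
denominators in `JUN c` and vanishing mixed derivatives in `c + 1` different variables. -/
noncomputable def WW (E : Type) [Field E] (c0 R c : ℕ) : Submodule E (FF E) :=
  Submodule.span E {w | ∃ (H : FF E) (b : List (MvPolynomial ℕ E)), RR c H ∧ FG c ∅ H ∧
    b.length ≤ R ∧ (∀ g ∈ b, g ≠ 0 ∧ IsLo c0 g) ∧ w = H / io E b.prod}

/-- Sums of good terms of length exactly `R`: the span of `b` is `N`-robust of dimension `≥ ρ`. -/
noncomputable def GT (E : Type) [Field E] (c0 N R c ρ : ℕ) : Submodule E (FF E) :=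
  Submodule.span E {w | ∃ (H : FF E) (b : List (MvPolynomial ℕ E)), RR c H ∧ FG c ∅ H ∧
    b.length = R ∧ (∀ g ∈ b, g ≠ 0 ∧ IsLo c0 g) ∧
    Robust N (Submodule.span E {g | g ∈ b}) ∧
    ρ ≤ Module.finrank E (Submodule.span E {g | g ∈ b}) ∧ w = H / io E b.prod}

/-- Sums of bad terms of length exactly `R`. -/
noncomputable def BT (E : Type) [Field E] (c0 N R c : ℕ) : Submodule E (FF E) :=
  Submodule.span E {w | ∃ (H : FF E) (b : List (MvPolynomial ℕ E)), RR c H ∧ FG c ∅ H ∧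
    b.length = R ∧ (∀ g ∈ b, g ≠ 0 ∧ IsLo c0 g) ∧
    ¬ Robust N (Submodule.span E {g | g ∈ b}) ∧ w = H / io E b.prod}

/-- A filtration of a subring of the field of fractions by powers of the ideal of the `y_a`, at a point
where the variables of `J1` are independent: see the row `LOX`. -/
structure Filt {ρ : ℕ} (c0 k : ℕ) (y : Fin ρ → MvPolynomial ℕ E) (J1 : Finset ℕ)
    (Fi : ℕ → FF E → Prop) : Prop where
  zero : ∀ j, Fi j 0
  add : ∀ j v w, Fi j v → Fi j w → Fi j (v + w)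
  mul : ∀ j l v w, Fi j v → Fi l w → Fi (j + l) (v * w)
  mono : ∀ j w, Fi (j + 1) w → Fi j w
  poly : ∀ a : MvPolynomial ℕ E, Fi 0 (io E a)
  mem : ∀ a, Fi 1 (io E (y a))
  der0 : ∀ i ∈ J1, ∀ w, Fi 0 w → Fi 0 (dd i w)
  der : ∀ i ∈ J1, ∀ j w, Fi (j + 1) w → Fi j (dd i w)
  eul : ∀ z : Fin ρ → ℕ, Piv y z → (∀ b, z b ∈ J1) → (∀ a b, (pderiv (z b) (y a)).vars ⊆ J1) →
    ∀ j w, 0 < j → Fi j w → Fi (j + 1) (eul y z j w)
  unitJ : ∀ h : MvPolynomial ℕ E, h ≠ 0 → h.vars ⊆ J1 → Fi 0 (io E h)⁻¹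
  unitK : ∀ h : MvPolynomial ℕ E, h ≠ 0 → h.vars.card ≤ k → Fi 0 (io E h)⁻¹
  unitM : ∀ g : MvPolynomial ℕ E, IsLo c0 g → g ∉ Submodule.span E (Set.range y) → Fi 0 (io E g)⁻¹
  proper : ¬ Fi 1 1

end Field

/-- All indices which are related to an element of `Y`. -/
def nb (Γ : ℕ → Finset ℕ) (Y : Finset ℕ) : Finset ℕ := Y.biUnion Γ

/-- All indices which are related to one of the `z b`. -/
def nz {ρ : ℕ} (Γ : ℕ → Finset ℕ) (z : Fin ρ → ℕ) : Finset ℕ := Finset.univ.biUnion fun b => Γ (z b)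

/-- The data of the point: `e : D[x] → Om` agrees with the injective homomorphism `j` on `D` and on
all variables but the `x_(z b)`, and maps the `y_a` to `0`. -/
def IsPt {E D Om : Type} [Field E] [CommRing D] [Algebra E D] [Field Om] [Algebra E Om] {ρ : ℕ}
    (ζ : ℕ → D) (y : Fin ρ → MvPolynomial ℕ E) (J : Finset ℕ) (z : Fin ρ → ℕ)
    (j e : MvPolynomial ℕ D →ₐ[E] Om) : Prop :=
  Function.Injective j ∧ (∀ d, e (C d) = j (C d)) ∧ (∀ i ∉ Set.range z, e (X i) = j (X i)) ∧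
  ∀ a, e (Ph ζ J (y a)) = 0

end Pool.Agent.PX
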