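import Pool.Agent.PX.Defs
import Pool.Agent.Helper82_PW.All

set_option autoImplicit false

/-!
# Squad PX (`MP_b2b50d_lc`): forms with bounded interaction, statements

Every row is a `Prop`, to be proved as a theorem `xxx : XxxStmt` (or `(h : YyyStmt) → XxxStmt`) in
`Pool/Agent/HelperN_PX/XXX.lean`, namespace `Pool.Agent.PX.HN`.  Most rows are edits of the proofs of the
rows of squad PW with the same name but the last letter (namespaces `Pool.Agent.PW.HN`).  The theorems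
`Pool.Agent.PW.aDer`, `aFgs`, `aFgm`, `aFgx`, `aFgz`, `aRrs`, `aZer`, `aBas`, `H47.lin`, `H26.rid`, `H20.eul`,
`H26.exists_embedding`, `H26.independent_of_mem_adjoin`, `H26.independent_of_minor`, `aGnf` can be cited
(they do not mention the forms).
-/

namespace Pool.Agent.PX

open MvPolynomial
open Pool.Agent.RS (FF io)
open Pool.Agent.PW (dd JUN RR FG Robust VV Piv del eul Ph Zer Free)

/-! ## Block 0: the relation and the classes `FN` -/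

/-- ROW GAX.  The interaction relation of a list of forms, monotonicity.

PROOF.  (1) `Γ i = insert i (b.toFinset.biUnion fun g => (pderiv i g).vars)`.  Symmetric: if
`j ∈ (pderiv i g).vars`, `j ≠ i`, then `∂_j ∂_i g ≠ 0` (`Helper58_PW/Basic.lean`: `notMem_vars`), and
`∂_i ∂_j g = ∂_j ∂_i g` (`Helper99_PW/DER.lean`: `pd_comm`), so `i ∈ (pderiv j g).vars`
(`pderiv_eq_zero_of_notMem_vars`).  Cardinality: `Finset.card_biUnion_le`.  (2) `pderiv` is linear,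
`vars_add_subset`, `vars_smul`-like (or (3) of this row with `vars ⊆ Γ i` a subalgebra
`supported`: `mem_supported`).  (3), (4) clear ((4): `(Γ i ∪ Γ' i).card ≤ s + s'`).  60 lines. -/
def GaxStmt : Prop := ∀ (E : Type) [Field E] [CharZero E],
  (∀ (c R : ℕ) (b : List (MvPolynomial ℕ E)), b.length ≤ R → (∀ g ∈ b, IsLo c g) →
    ∃ Γ : ℕ → Finset ℕ, Sym (R * c + 1) Γ ∧ ∀ g ∈ b, IsG Γ g) ∧
  (∀ Γ : ℕ → Finset ℕ, ∃ S : Submodule E (MvPolynomial ℕ E), ∀ f, f ∈ S ↔ IsG Γ f) ∧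
  (∀ (Γ Γ' : ℕ → Finset ℕ) (g : MvPolynomial ℕ E), (∀ i, Γ i ⊆ Γ' i) → IsG Γ g → IsG Γ' g) ∧
  ∀ (Γ Γ' : ℕ → Finset ℕ) (s s' : ℕ), Sym s Γ → Sym s' Γ' → Sym (s + s') fun i => Γ i ∪ Γ' i

/-- ROW FNS.  `FN Γ c G` is a linear subspace (edit of `Helper27_PW/FGS.lean`). -/
def FnsStmt : Prop := ∀ (E : Type) [Field E] (Γ : ℕ → Finset ℕ) (c : ℕ) (G : Finset ℕ),
  ∃ S : Submodule E (FF E), ∀ f, f ∈ S ↔ FN Γ c G f

/-- ROW FNM.  Monotonicity, stability under the derivations, comparison with `FG`.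

PROOF (from FNS; model `Helper48_PW/FGM.lean`).  (1) Induction on `c` for all `G`, `G'`:
`G ∪ Γ i ⊆ G' ∪ Γ i`.  (2) Induction on `c`: for `c = 0`, `dd i f = 0` and `FN 0 _ 0` (FNS).  (3) Induction
on `c` for all `G`, `f`: `dd i (dd j f) = dd j (dd i f)`.  (4) Induction on `c`: `insert i G ⊆ G ∪ Γ i`
(`refl`), `aFgm.1`.  (5) Induction on `c` for all `G`, `f`: `c = 0`: the same definition.  Step: let
`i ∉ G`; `dd i f` is in `FN Γ c (G ∪ Γ i)`, so in `FG (c (s + 1)) (G ∪ Γ i)`, so (monotonicity)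
in `FG (c (s + 1)) (insert i G ∪ Γ i)`, so in `FG (c (s + 1) + s) (insert i G)` by `aFgm` (4) for the at
most `s` elements of `Γ i` (`Finset.induction_on`) and `aFgm` (2); and
`(c + 1) (s + 1) = (c (s + 1) + s) + 1`.  90 lines. -/
def FnmStmt : Prop := ∀ (E : Type) [Field E] (s : ℕ) (Γ : ℕ → Finset ℕ), Sym s Γ →
  (∀ (c : ℕ) (G G' : Finset ℕ) (f : FF E), G ⊆ G' → FN Γ c G f → FN Γ c G' f) ∧
  (∀ (c c' : ℕ) (G : Finset ℕ) (f : FF E), c ≤ c' → FN Γ c G f → FN Γ c' G f) ∧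
  (∀ (c : ℕ) (G : Finset ℕ) (f : FF E) (j : ℕ), FN Γ c G f → FN Γ c G (dd j f)) ∧
  (∀ (c : ℕ) (G : Finset ℕ) (f : FF E), FG c G f → FN Γ c G f) ∧
  ∀ (c : ℕ) (G : Finset ℕ) (f : FF E), FN Γ c G f → FG (c * (s + 1)) G f

/-- ROW FNX.  Products (edit of `Helper24_PW/FGX.lean`: `insert i G` becomes `G ∪ Γ i`). -/
def FnxStmt : Prop := ∀ (E : Type) [Field E] (s : ℕ) (Γ : ℕ → Finset ℕ), Sym s Γ →
  ∀ (c c' : ℕ) (G : Finset ℕ) (f g : FF E), FN Γ c G f → FN Γ c' G g → FN Γ (c + c') G (f * g)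

/-- ROW FNP.  Forms have order `1`.

PROOF.  `dd i (io g) = io (∂_i g)` (`aDer`), a polynomial in the variables of `Γ i`, so it is killed by
`dd j` for `j ∉ G ∪ Γ i`.  15 lines. -/
def FnpStmt : Prop := ∀ (E : Type) [Field E] (Γ : ℕ → Finset ℕ) (g : MvPolynomial ℕ E)
  (G : Finset ℕ), IsG Γ g → FN Γ 1 G (io E g)

/-! ## Block 2: dual derivations and the descent -/

/-- ROW DLX.  The dual derivations (edit of `Helper26_PW/DLT.lean`; `T` is any set which contains the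
variables of the entries of the pivot matrix). -/
def DlxStmt : Prop := ∀ (E : Type) [Field E] (ρ : ℕ) (y : Fin ρ → MvPolynomial ℕ E)
  (z : Fin ρ → ℕ), Piv y z →
    (∀ a a', del y z a (io E (y a')) = if a = a' then 1 else 0) ∧
    ∀ T : Finset ℕ, (∀ a b, (pderiv (z b) (y a)).vars ⊆ T) →
      ∃ Δ : MvPolynomial ℕ E, Δ ≠ 0 ∧ Δ.vars ⊆ T ∧ ∀ a b, ∃ n : MvPolynomial ℕ E,
        n.vars ⊆ T ∧ (VV y z)⁻¹ a b = io E n / io E Δ

/-- ROW EUX.  The dual derivations lower the order, the Euler operator keeps it.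

PROOF (from FNS, FNM, FNX, FNP, DLX; edit of `Helper15_PW/EUF.lean`).  `T' = nz Γ z`, at most `ρ s`
elements, `T = G ∪ T'`.  By DLX and `aFgz`, `(VV y z)⁻¹ a b` is in `FG 0 T'`, so in `FN Γ 0 T` (the same
definition), and in `RR (ρ s)`.  `dd (z b) H` is in `FN Γ c (G ∪ Γ (z b))`, so in `FN Γ c T`.  FNX, sum over
`b`: `del y z a H` is in `FN Γ c T`.  `io (y a)` is in `FN Γ 1 T` (FNP); FNX with `1 + c`.  60 lines. -/
def EuxStmt : Prop := ∀ (E : Type) [Field E] [CharZero E] (ρ c k j s : ℕ) (Γ : ℕ → Finset ℕ)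
  (y : Fin ρ → MvPolynomial ℕ E) (G : Finset ℕ) (z : Fin ρ → ℕ) (H : FF E), Sym s Γ →
  (∀ a, IsG Γ (y a)) → Piv y z → (∀ b, z b ∉ G) → FN Γ (c + 1) G H → RR k H → ρ * s ≤ k →
    (∀ a, FN Γ c (G ∪ nz Γ z) (del y z a H) ∧ RR k (del y z a H)) ∧
    FN Γ (c + 1) (G ∪ nz Γ z) (eul y z j H) ∧ RR k (eul y z j H)

/-- ROW VAX.  A function of order `≤ c` which vanishes to order `c + 1` at the points is zero.

PROOF (edit of `Helper60_PW/VAN.lean`).  Induction on `c` for all `G`, `X`; in the step `dd i X` is in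
`FN Γ c (G ∪ Γ i)`, `i ∈ Γ i`, and `(G ∪ Γ i).card + c s ≤ G.card + (c + 1) s`; `FN Γ 0 = FG 0`.
50 lines. -/
def VaxStmt : Prop := ∀ (E : Type) [Field E] [CharZero E] (ρ c0 k s : ℕ) (Γ : ℕ → Finset ℕ)
  (y : Fin ρ → MvPolynomial ℕ E) (c : ℕ) (G : Finset ℕ) (X : FF E), Sym s Γ → FN Γ c G X →
    (∀ J1 : Finset ℕ, G ⊆ J1 → J1.card ≤ G.card + c * s → ∃ Fi : ℕ → FF E → Prop,
      Filt c0 k y J1 Fi ∧ Fi (c + 1) X) → X = 0

/-- ROW PIX (helper58).  Pivot sets. -/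
def PixStmt : Prop := ∀ (E : Type) [Field E] [CharZero E] (ρ N s : ℕ) (Γ : ℕ → Finset ℕ)
  (y : Fin ρ → MvPolynomial ℕ E), Sym s Γ → LinearIndependent E y → (∀ a, IsG Γ (y a)) →
    Robust N (Submodule.span E (Set.range y)) → ∀ Y : Finset ℕ, Y.card + ρ * (s * s) ≤ N →
    ∃ z : Fin ρ → ℕ, Piv y z ∧ ∀ b, z b ∉ Y

/-- ROW DSX.  IDEAL POWER DESCENT: a function of order `≤ c` which vanishes at the points is a
combination `∑ y_a h_a` with `h_a` of bounded order.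

PROOF (from PIX, VAX, EUX, FNM; edit of `Helper51_PW/DSC.lean`).  `N0 = g + ρ s c + ρ s s`,
`r = g + ρ s c + c s`, `k' = k + ρ s`, `c' = c (s + 1) + g + ρ s c + k'`.  Choose pivot sets
`z_0, ..., z_(c-1)` (PIX with `Y = G ∪ U_l`, `U_l = ⋃ (l' < l), nz Γ z_l'`, `(G ∪ U_l).card ≤ g + ρ s l`)
such that `z_l b ∉ G ∪ U_l`.  `H_0 = H`, `H_(l+1) = eul y z_l (l + 1) H_l`.  Induction on `l ≤ c`: `H_l` is
in `FN Γ c (G ∪ U_l)` (start: FNM (4)) and `RR k'` (EUX with `c = (c - 1) + 1`), and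
`H - H_l = ∑ y_a h_(l,a)` with `h_(l+1,a) = h_(l,a) + (l + 1)⁻¹ del y z_l a H_l`, where
`del y z_l a H_l` is in `FN Γ (c - 1) (G ∪ U_(l+1))`, so in `FG (c (s + 1)) (G ∪ U_(l+1))` (FNM (5)), so in
`FG c' ∅` (`aFgm` (5), (2)), and in `RR c'`.
If `J1 ⊇ G ∪ U_c`, `J1.card ≤ (G ∪ U_c).card + c s ≤ r`, then `Fi 1 H` gives `Fi (l + 1) H_l` by induction
(`Filt.eul` with `j = l + 1`: `z_l b ∈ Γ (z_l b) ⊆ J1`), so `Fi (c + 1) H_c`.  VAX (`G := G ∪ U_c`):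
`H_c = 0`.  So `H = ∑ y_a h_(c,a)`.  120 lines.  STRONG. -/
def DsxStmt : Prop := ∀ c0 ρ c k g s : ℕ, ∃ c' r N0 : ℕ, ∀ (E : Type) [Field E] [CharZero E]
  (Γ : ℕ → Finset ℕ) (y : Fin ρ → MvPolynomial ℕ E) (G : Finset ℕ) (H : FF E), Sym s Γ →
    G.card ≤ g → LinearIndependent E y → (∀ a, IsG Γ (y a)) →
    Robust N0 (Submodule.span E (Set.range y)) → FG c G H → RR k H →
    (∀ J1 : Finset ℕ, G ⊆ J1 → J1.card ≤ r → ∃ Fi : ℕ → FF E → Prop,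
      Filt c0 k y J1 Fi ∧ Fi 1 H) →
    ∃ h : Fin ρ → FF E, H = ∑ a, io E (y a) * h a ∧ ∀ a, FG c' ∅ (h a) ∧ RR c' (h a)

/-! ## Block 3: the point -/

/-- ROW EPX (helper26).  THE POINT EXISTS.

PROOF (from PIX; edit of `Helper26_PW/Point.lean`, `EPS.lean`).  `Z = {z_b}`, `J = J1 ∪ nz Γ z`,
`A_a = kill Z (y a)`, `B_a = y a - A_a`: every monomial of `B_a` contains some `x_(z b)`, so all its
variables are in `Γ (z b) ⊆ J`.  The family `(x_j)_(j ∈ J - Z), (B_a)_a` is algebraically independent (the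
minor with the columns `J - Z`, `z_b` is `det (∂_(z b) y_a)`), and so is `(x_j)_(j ∈ J - Z),
(- Ph ζ J A_a)_a` in `MvPolynomial ℕ D`: PIX gives a pivot set `z'` outside `nb Γ J` (so
`Γ (z' b)` is disjoint from `J`), `Free` for `⋃ Γ (z' b)` (at most `ρ s ≤ m` elements),
`aevalTower π0 X`, and `∂_(z' b) A_a = ∂_(z' b) y_a`.
`exists_embedding` with the variables `x_j`, `j ∈ J` (`s := {j // j ∈ J}`, `|J| = |J - Z| + ρ`) sends
`x_j ↦ x_j` (`j ∈ J - Z`), `B_a ↦ - Ph ζ J A_a`: `ι`.  `e`: `C d ↦ d`, `x_i ↦ x_i` for `i ∉ Z`,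
`x_(z_b) ↦ ι (x_(z_b))`.  Then `e (Ph ζ J (y a)) = e (Ph A_a) + e (Ph B_a) = 0`.  150 lines.
STRONG. -/
def EpxStmt : Prop := ∀ (E D : Type) [Field E] [CharZero E] [CommRing D] [IsDomain D] [Algebra E D]
  (ζ : ℕ → D) (m ρ N s : ℕ) (Γ : ℕ → Finset ℕ) (y : Fin ρ → MvPolynomial ℕ E) (J1 : Finset ℕ)
  (z : Fin ρ → ℕ), Sym s Γ → Free E m ζ → LinearIndependent E y → (∀ a, IsG Γ (y a)) →
    Robust N (Submodule.span E (Set.range y)) → Piv y z → (∀ b, z b ∉ J1) →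
    (J1.card + ρ * s) * s + ρ * (s * s) ≤ N → ρ * s ≤ m →
    ∃ (Om : Type) (_ : Field Om) (_ : Algebra E Om)
      (j e : MvPolynomial ℕ D →ₐ[E] Om), IsPt ζ y (J1 ∪ nz Γ z) z j e

/-- ROW MAX (helper22).  COUNTING AT THE POINT: if `r` forms vanish at the point and have a pivot set
far from `T ⊇ J` then `r ≤ ρ`, and if `r = ρ` then no nonzero polynomial in the variables of `T`
vanishes at the point.

PROOF (edit of `Helper22_PW/Pt.lean`, `H22.main`).  `T' = nb Γ T ⊇ T`, `A_a = kill T (f a)`,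
`B_a = f a - A_a` (every monomial contains a variable `t ∈ T`, so all its variables are in
`Γ t ⊆ T'`).  The `|J| - ρ + |T' - J| + r` elements `e x_j` (`j ∈ J - Z`), `e ζ_i` (`i ∈ T' - J`),
`e (Ph ζ J A_a)` are algebraically independent (`j` is injective; `π` of `Free` for
`(T' - J) ∪ ⋃ Γ (z' b)`; the minor with the columns `J - Z`, `T' - J`, `z'_b` is
`det (∂_(z' b) f_a)`, because `Γ (z' b)` is disjoint from `T' ⊇ Z`) and they are polynomials in the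
`|T'|` elements `e (Ph ζ J x_i)`, `i ∈ T'` (`e (Ph ζ J A_a) = - e (Ph ζ J B_a)`).  So `r ≤ ρ`, and for
`r = ρ` the `e (Ph ζ J x_i)`, `i ∈ T'`, are algebraically independent (ALG2).  200 lines.  STRONG. -/
def MaxStmt : Prop := ∀ (E D Om : Type) [Field E] [CharZero E] [CommRing D] [IsDomain D]
  [Algebra E D] [Field Om] [Algebra E Om] (ζ : ℕ → D) (m ρ r s : ℕ) (Γ : ℕ → Finset ℕ)
  (y : Fin ρ → MvPolynomial ℕ E) (f : Fin r → MvPolynomial ℕ E) (J T : Finset ℕ) (z : Fin ρ → ℕ)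
  (z' : Fin r → ℕ) (j e : MvPolynomial ℕ D →ₐ[E] Om), Sym s Γ → Free E m ζ →
    IsPt ζ y J z j e → Function.Injective z → (∀ b, z b ∈ J) → J ⊆ T →
    (∀ a, IsG Γ (f a)) → (∀ a, e (Ph ζ J (f a)) = 0) → Piv f z' →
    (∀ b, z' b ∉ nb Γ (nb Γ T)) → (nb Γ T).card + r * s ≤ m →
    r ≤ ρ ∧ (r = ρ → ∀ h : MvPolynomial ℕ E, h ≠ 0 → h.vars ⊆ T → e (Ph ζ J h) ≠ 0)

/-- ROW PNX.  THE POINT, final form.

PROOF (from PIX, EPX, MAX, GAX; model `Helper22_PW/Pt.lean`, `ptj`, `ptf`).  `z` from PIX with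
`Y = J1`, `J = J1 ∪ nz Γ z`, `J.card ≤ J1.card + ρ s`, `e` from EPX.  Second property: `T = J ∪ h.vars`,
`f = y`, `r = ρ`, `z'` from PIX with `Y = nb Γ (nb Γ T)` (at most `(J.card + k) s s` elements), MAX.
Third property: let `e (Ph ζ J g) = 0`.  `N1 = (J1.card + ρ s + ρ + 1) (s + c0)^2`.  If some nonzero
`f ∈ span (y, g)` has fewer than `N1 ≤ k` variables: `f = κ g + ∑ θ_a y_a`, `κ ≠ 0` is not needed:
`e (Ph ζ J f) = 0`, a contradiction to the second property.  Otherwise `(y, g)` (`Fin.snoc`) is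
linearly independent, its span is `N1`-robust, `Γ' i = Γ i ∪ (relation of g)` (GAX (1), (3), (4);
`Sym (s + c0 + 1)`; to get `s + c0` take `Γ' i = Γ i ∪ (pderiv i g).vars` directly), PIX with
`Y = nb Γ' (nb Γ' J)` (at most `J.card (s + c0)^2` elements), MAX with `T = J`, `r = ρ + 1`: `ρ + 1 ≤ ρ`, a
contradiction.  100 lines.  STRONG. -/
def PnxStmt : Prop := ∀ (E D : Type) [Field E] [CharZero E] [CommRing D] [IsDomain D] [Algebra E D]
  (ζ : ℕ → D) (m ρ N k c0 s : ℕ) (Γ : ℕ → Finset ℕ) (y : Fin ρ → MvPolynomial ℕ E)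
  (J1 : Finset ℕ), Sym s Γ → Free E m ζ → LinearIndependent E y → (∀ a, IsG Γ (y a)) →
    Robust N (Submodule.span E (Set.range y)) →
    (J1.card + ρ * s + ρ + 1) * ((s + c0) * (s + c0)) ≤ k →
    (J1.card + ρ * s + k + ρ) * (s * s) ≤ N → k ≤ N →
    (J1.card + ρ * s + k + ρ + 1) * (s + c0) ≤ m →
    ∃ (J : Finset ℕ) (Om : Type) (_ : Field Om) (_ : Algebra E Om)
      (e : MvPolynomial ℕ D →ₐ[E] Om), J1 ⊆ J ∧ J.card ≤ J1.card + ρ * s ∧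
      (∀ a, e (Ph ζ J (y a)) = 0) ∧
      (∀ h : MvPolynomial ℕ E, h ≠ 0 → h.vars.card ≤ k → e (Ph ζ J h) ≠ 0) ∧
      ∀ g : MvPolynomial ℕ E, IsLo c0 g → g ∉ Submodule.span E (Set.range y) →
        e (Ph ζ J g) ≠ 0

/-! ## Block 4: the filtration at a point, detection -/

/-- ROW LOX.  THE FILTRATION AT A POINT (edit of `Helper19_PW/LOC.lean`: DLX with `T = J1` instead of
DLT; the set `G` is gone). -/
def LoxStmt : Prop := ∀ (E D : Type) [Field E] [CharZero E] [CommRing D] [IsDomain D] [Algebra E D]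
  (ρ c0 k : ℕ) (y : Fin ρ → MvPolynomial ℕ E) (ζ : ℕ → D) (J1 J : Finset ℕ) (Om : Type)
  [Field Om] (e : MvPolynomial ℕ D →+* Om), J1 ⊆ J →
    (∀ a, e (Ph ζ J (y a)) = 0) →
    (∀ h : MvPolynomial ℕ E, h ≠ 0 → h.vars ⊆ J1 → e (Ph ζ J h) ≠ 0) →
    (∀ h : MvPolynomial ℕ E, h ≠ 0 → h.vars.card ≤ k → e (Ph ζ J h) ≠ 0) →
    (∀ g : MvPolynomial ℕ E, IsLo c0 g → g ∉ Submodule.span E (Set.range y) →
      e (Ph ζ J g) ≠ 0) →
    ∃ Fi : ℕ → FF E → Prop, Filt c0 k y J1 Fi ∧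
      ∀ W, Zer ζ J W → Fi 0 W → ∀ j, Fi j W

/-- ROW FIX.  FILTRATIONS EXIST (from LOX, PNX; edit of `Helper14_PW/FIL.lean`).

PROOF.  `k' = max k ((r + ρ s + ρ + 1) (s + c0)^2)` (and at least `r`), `N0`, `m` accordingly. -/
def FixStmt : Prop := ∀ c0 ρ k r s : ℕ, ∃ N0 m : ℕ, ∀ (E D : Type) [Field E] [CharZero E]
  [CommRing D] [IsDomain D] [Algebra E D] (Γ : ℕ → Finset ℕ) (y : Fin ρ → MvPolynomial ℕ E)
  (ζ : ℕ → D) (J1 : Finset ℕ), Sym s Γ → LinearIndependent E y → (∀ a, IsG Γ (y a)) →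
    J1.card ≤ r → Robust N0 (Submodule.span E (Set.range y)) → Free E m ζ →
    ∃ J : Finset ℕ, J1 ⊆ J ∧ J.card ≤ r + ρ * s ∧ ∃ Fi : ℕ → FF E → Prop, Filt c0 k y J1 Fi ∧
      ∀ W, Zer ζ J W → Fi 0 W → ∀ j, Fi j W

/-- ROW DFX.  The dual derivations and the filtration (from DLX with `T = J1`; edit of
`Helper68_PW/DFI.lean`). -/
def DfxStmt : Prop := ∀ (E : Type) [Field E] [CharZero E] (ρ c0 k : ℕ)
  (y : Fin ρ → MvPolynomial ℕ E) (J1 : Finset ℕ) (z : Fin ρ → ℕ) (Fi : ℕ → FF E → Prop),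
  Piv y z → (∀ b, z b ∈ J1) → (∀ a b, (pderiv (z b) (y a)).vars ⊆ J1) → Filt c0 k y J1 Fi →
    (∀ a w, Fi 0 w → Fi 0 (del y z a w)) ∧ ∀ a j w, Fi (j + 1) w → Fi j (del y z a w)

/-- ROW DDX.  `d` applications of a derivation to `H q_1 ⋯ q_d` (edit of `Helper68_PW/DDL.lean`, only the
structure `Filt` is another one). -/
def DdxStmt : Prop := ∀ (E : Type) [Field E] (ρ c0 k : ℕ)
  (y : Fin ρ → MvPolynomial ℕ E) (J1 : Finset ℕ) (Fi : ℕ → FF E → Prop), Filt c0 k y J1 Fi →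
    ∀ δ : Derivation E (FF E) (FF E), (∀ w, Fi 0 w → Fi 0 (δ w)) →
      (∀ j w, Fi (j + 1) w → Fi j (δ w)) →
      (∀ d j w, Fi (j + d) w → Fi j ((fun x => δ x)^[d] w)) ∧
      ∀ (q : List (FF E)) (κ : FF E → E) (H : FF E),
        (∀ x ∈ q, Fi 1 x ∧ δ x = algebraMap E (FF E) (κ x)) → Fi 0 H →
        Fi 1 ((fun x => δ x)^[q.length] (H * q.prod) -
          algebraMap E (FF E) ((q.length.factorial : E) * (q.map κ).prod) * H)

open Classical in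
/-- ROW DEX.  DETECTION (from DFX, DDX, DLX; edit of `Helper74_PW/DET.lean`). -/
def DexStmt : Prop := ∀ (E : Type) [Field E] [CharZero E] (ρ c0 k R : ℕ)
  (y : Fin ρ → MvPolynomial ℕ E) (J1 : Finset ℕ) (z : Fin ρ → ℕ) (Fi : ℕ → FF E → Prop),
  Piv y z → (∀ b, z b ∈ J1) → (∀ a b, (pderiv (z b) (y a)).vars ⊆ J1) → Filt c0 k y J1 Fi →
    ∀ (ι : Type) [Fintype ι] (H : ι → FF E) (b : ι → List (MvPolynomial ℕ E)),
      (∀ t, Fi 0 (H t)) → (∀ t, (b t).length ≤ R) → (∀ t, ∀ g ∈ b t, g ≠ 0 ∧ IsLo c0 g) →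
      (∀ Q : MvPolynomial ℕ E, Fi 0 (io E Q * ∑ t, H t / io E (b t).prod) →
        ∀ j, Fi j (io E Q * ∑ t, H t / io E (b t).prod)) →
      ∀ θ : MvPolynomial ℕ E →ₗ[E] E,
        (∀ t, ∀ g ∈ b t, g ∈ Submodule.span E (Set.range y) → θ g ≠ 0) →
        Fi 1 (∑ t ∈ Finset.univ.filter fun t => (b t).length = R ∧
          ∀ g ∈ b t, g ∈ Submodule.span E (Set.range y), (((b t).map θ).prod)⁻¹ • H t)

/-! ## Block 5: rewriting -/

/-- ROW WWX.  Monotonicity of `WW`, cancelling one factor, decomposition of `WW` (edit of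
`Helper47_PW/WWM.lean`). -/
def WwxStmt : Prop := ∀ (E : Type) [Field E] [CharZero E] (c0 : ℕ),
  (∀ R R' c c' : ℕ, R ≤ R' → c ≤ c' → WW E c0 R c ≤ WW E c0 R' c') ∧
  (∀ (R c : ℕ) (b : List (MvPolynomial ℕ E)) (f : MvPolynomial ℕ E) (h : FF E),
    b.length = R + 1 → (∀ g ∈ b, g ≠ 0 ∧ IsLo c0 g) → f ∈ Submodule.span E {g | g ∈ b} →
    FG c ∅ h → RR c h → io E f * h / io E b.prod ∈ WW E c0 R c) ∧
  (∀ R c N : ℕ, WW E c0 (R + 1) c ≤ GT E c0 N (R + 1) c 0 ⊔ BT E c0 N (R + 1) c ⊔ WW E c0 R c) ∧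
  (∀ R c N ρ : ℕ, R < ρ → GT E c0 N R c ρ = ⊥) ∧
  (∀ (c : ℕ) (W : FF E), W ∈ WW E c0 0 c → FG c ∅ W) ∧
  ∀ R c c' N ρ : ℕ, c ≤ c' → GT E c0 N R c ρ ≤ GT E c0 N R c' ρ ∧ BT E c0 N R c ≤ BT E c0 N R c'

/-- ROW REX.  REWRITING of the terms with a given span (from WWX, `H47.lin`, `H26.rid`; edit of
`Helper60_PW/REW.lean`). -/
def RexStmt : Prop := ∀ (E : Type) [Field E] [CharZero E] (ρ c0 R c : ℕ)
  (y : Fin ρ → MvPolynomial ℕ E), LinearIndependent E y → ∀ (S : Finset (MvPolynomial ℕ E)),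
    (∀ g ∈ S, g ≠ 0 ∧ g ∈ Submodule.span E (Set.range y)) →
    ∀ (ι : Type) [Fintype ι] (H : ι → FF E) (b : ι → List (MvPolynomial ℕ E)),
      (∀ t, (b t).length = R + 1) → (∀ t, ∀ g ∈ b t, g ∈ S ∧ g ≠ 0 ∧ IsLo c0 g) →
      (∀ t, Submodule.span E {g | g ∈ b t} = Submodule.span E (Set.range y)) →
      (∀ θ : MvPolynomial ℕ E →ₗ[E] E, (∀ g ∈ S, θ g ≠ 0) → ∃ h : Fin ρ → FF E,
        ∑ t, (((b t).map θ).prod)⁻¹ • H t = ∑ a, io E (y a) * h a ∧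
          ∀ a, FG c ∅ (h a) ∧ RR c (h a)) →
      ∑ t, H t / io E (b t).prod ∈ WW E c0 R c

/-- ROW BAX.  Bad terms can be shortened (from WWX; edit of `Helper41_PW/BAD.lean`). -/
def BaxStmt : Prop := ∀ (E : Type) [Field E] [CharZero E] (c0 N R c : ℕ),
  BT E c0 N (R + 1) c ≤ WW E c0 R (c + N)

/-! ## Block 6: theorem PX -/

/-- ROW STX.  ONE STEP: the good terms of dimension `ρ` are rewritten.

PROOF (from FIX, DSX, DEX, REX, PIX, GAX, WWX; edit of `Helper14_PW/STP.lean`).  `s = (R + 1) c0 + 1`,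
`g = 0`.  `(c₁, r₁, N₁)` from DSX for `(c0, ρ, c, c, 0, s)`; `(N₂, m)` from FIX for
`(c0, ρ, c, r₁ + ρ s, s)`; `c' = max c c₁`, `r = r₁ + 2 ρ s`, `N0 = max (max N₁ N₂) (r₁ + ρ s s)`.
For a span `M` of dimension `ρ` of a good term: GAX (1) for `b t` gives `Γ`, GAX (2) for all of `M`.
`H_θ` is in `FG c ∅`; DSX with `G = ∅`.  Hypothesis of DSX: let `J1.card ≤ r₁`; PIX with `Y = J1`: `z`;
`J1' = J1 ∪ nz Γ z` (contains `z b` and the variables of `∂_(z b) y_a`); FIX for `J1'`: `J`,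
`J.card ≤ r₁ + 2 ρ s`, `Fi` with `Filt c0 c y J1' Fi`, so also `Filt c0 c y J1 Fi` (fewer conditions).
The rest as in PW.  VERY STRONG. -/
def StxStmt : Prop := ∀ c0 R c ρ : ℕ, ∃ c' r N0 m : ℕ, c ≤ c' ∧ ∀ N : ℕ, N0 ≤ N →
  ∀ (E D : Type) [Field E] [CharZero E] [CommRing D] [IsDomain D] [Algebra E D] (ζ : ℕ → D),
    Free E m ζ → ∀ W : FF E,
      W ∈ GT E c0 N (R + 1) c ρ ⊔ BT E c0 N (R + 1) c ⊔ WW E c0 R c →
      (∀ J : Finset ℕ, J.card ≤ r → Zer ζ J W) →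
      W ∈ GT E c0 N (R + 1) c' (ρ + 1) ⊔ BT E c0 N (R + 1) c' ⊔ WW E c0 R c'

/-- ROW THX.  THEOREM PX (from STX, BAX, WWX, `aBas`; edit of `Helper68_PW/THP.lean`). -/
def ThxStmt : Prop := ∀ c0 R c : ℕ, ∃ r m : ℕ,
  ∀ (E D : Type) [Field E] [CharZero E] [CommRing D] [IsDomain D] [Algebra E D] (ζ : ℕ → D),
    Free E m ζ → ∀ W : FF E, W ∈ WW E c0 R c →
      (∀ J : Finset ℕ, J.card ≤ r → Zer ζ J W) → W = 0

end Pool.Agent.PX
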